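import Mathlib
import Pool.Agent.TH996.Urn.Model
import Pool.Agent.W845.CP.PL

/-!
# The competing urn scheme in continuous time
-/

set_option autoImplicit false
set_option linter.unusedSectionVars false

namespace Q288.UrnCT

open MeasureTheory Pool.Agent.TH996.Urn Pool.Agent.W845.CP
open scoped ENNReal

variable {V : Type} [Fintype V] {s : ℕ}

/-- The nucleations: each of the `x v c` balls of type `c` at `v` nucleates at rate one, and then
the configuration becomes `step G x v c`. -/
noncomputable def nucl (G : SimpleGraph V) (x : Config V s) : Measure (Config V s) :=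
  ∑ v, ∑ c, (x v c : ℝ≥0∞) • Measure.dirac (step G x v c)

open Classical in
/-- The jump kernel (there are dummy jumps out of the empty configuration, which never occurs). -/
noncomputable def jump (G : SimpleGraph V) (x : Config V s) : Measure (Config V s) :=
  if total x = 0 then Measure.dirac x else nucl G x

lemma lintegral_nucl (G : SimpleGraph V) (x : Config V s) (f : Config V s → ℝ≥0∞) :
    ∫⁻ y, f y ∂(nucl G x) = ∑ v, ∑ c, (x v c : ℝ≥0∞) * f (step G x v c) := by
  unfold nucl
  rw [lintegral_finsetSum_measure]
  refine Finset.sum_congr rfl fun v _ => ?_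
  rw [lintegral_finsetSum_measure]
  refine Finset.sum_congr rfl fun c _ => ?_
  rw [lintegral_smul_measure, lintegral_dirac]
  rfl

lemma nucl_univ (G : SimpleGraph V) (x : Config V s) : nucl G x Set.univ = (total x : ℝ≥0∞) := by
  rw [← lintegral_one, lintegral_nucl]
  unfold total
  push_cast
  simp

lemma goodJ_jump (G : SimpleGraph V) : GoodJ (jump G (s := s)) := by
  intro x
  unfold jump
  by_cases h : total x = 0
  · rw [if_pos h]; simp
  · rw [if_neg h, nucl_univ]
    exact ⟨by exact_mod_cast h, ENNReal.natCast_ne_top _⟩

/-- The law of the competing urn scheme on `G` started from `x₀`: the law of the sequence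
`(Y k, T k)`, where `Y k` is the configuration after `k` nucleations and `T k` is the time of the
`k`-th nucleation. -/
noncomputable def urnLaw (G : SimpleGraph V) (x₀ : Config V s) : Measure (ℕ → Config V s × ℝ) :=
  law (jump G) (goodJ_jump G) x₀

/-- `x` is the configuration at time `t`. -/
def ConfAt (ω : ℕ → Config V s × ℝ) (t : ℝ) (x : Config V s) : Prop :=
  ∃ k, (ω k).2 ≤ t ∧ t < (ω (k + 1)).2 ∧ (ω k).1 = x

/-- There is a finite time after which every ball present is of one and the same type. -/
def SingleSurvivor (ω : ℕ → Config V s × ℝ) : Prop :=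
  ∃ (t₀ : ℝ) (c : Fin s), ∀ t, t₀ ≤ t → ∀ x, ConfAt ω t x → ∀ v d, 0 < x v d → d = c

/-- From every nonzero configuration (with monochromatic urns) the competing urn scheme on `G` with
types in `Fin s` almost surely has a single surviving type. -/
def AlwaysSingle (G : SimpleGraph V) (s : ℕ) : Prop :=
  ∀ x₀ : Config V s, UrnsMono x₀ → 0 < total x₀ → ∀ᵐ ω ∂(urnLaw G x₀), SingleSurvivor ω

end Q288.UrnCT
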