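import Mathlib
import Pool.Agent.Q288.UrnCT.Defs
import Pool.Agent.Q288.CTMC.NonExpl
import Pool.Agent.TH996.Urn.SbcMain

/-!
# From coexistence in the discrete-time urn process to coexistence in continuous time
-/

set_option autoImplicit false
set_option linter.unusedSectionVars false

namespace Q288.Jump

open MeasureTheory ProbabilityTheory Pool.Agent.W845.CP Filter Topology
open scoped ENNReal

variable {X : Type} [MeasurableSpace X] [Countable X] [DiscreteMeasurableSpace X]

lemma measurableSet_nonpos : MeasurableSet {s : ℝ | s ≤ 0} :=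
  measurableSet_le measurable_id measurable_const

lemma expMeasure_nonpos (R : ℝ) : expMeasure R {s : ℝ | s ≤ 0} = 0 := by
  have h1 : expMeasure R = volume.withDensity (exponentialPDF R) := rfl
  have h2 : {s : ℝ | s ≤ 0} = {s : ℝ | s < 0} ∪ {0} := by
    ext s
    simp only [Set.mem_ofPred_eq, Set.mem_union, Set.mem_singleton_iff]
    exact le_iff_lt_or_eq
  rw [h2]
  refine measure_union_null (expMeasure_neg R) ?_
  rw [h1, withDensity_apply _ (measurableSet_singleton _)]
  simp

/-- The jump times are strictly increasing. -/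
theorem ae_strict (J : X → Measure X) (hJ : GoodJ J) (x0 : X) :
    ∀ᵐ ω ∂(law J hJ x0), ∀ n, (ω n).2 < (ω (n + 1)).2 := by
  classical
  rw [ae_all_iff]
  intro n
  have ht := tower J hJ x0 n (fun h z => if z.2 ≤ (h ⟨n, by simp⟩).2 then 1 else 0) (by
    have : (Function.uncurry fun (h : Π _ : Finset.Iic n, X × ℝ) (z : X × ℝ) =>
        if z.2 ≤ (h ⟨n, by simp⟩).2 then (1 : ℝ≥0∞) else 0) =
        fun q => if q.2.2 ≤ (q.1 ⟨n, by simp⟩).2 then (1 : ℝ≥0∞) else 0 := by
      ext q; rfl
    rw [this]
    exact Measurable.ite (measurableSet_le (by fun_prop) (by fun_prop)) measurable_const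
      measurable_const)
  have hr : ∀ ω : ℕ → X × ℝ, ∫⁻ z, (fun (h : Π _ : Finset.Iic n, X × ℝ) (z : X × ℝ) =>
      if z.2 ≤ (h ⟨n, by simp⟩).2 then (1 : ℝ≥0∞) else 0)
      (Preorder.frestrictLe (π := fun _ => X × ℝ) n ω) z ∂(stepM J (ω n)) = 0 := by
    intro ω
    have e2 : ∀ z : X × ℝ, (fun (h : Π _ : Finset.Iic n, X × ℝ) (z : X × ℝ) =>
      if z.2 ≤ (h ⟨n, by simp⟩).2 then (1 : ℝ≥0∞) else 0)
      (Preorder.frestrictLe (π := fun _ => X × ℝ) n ω) z =
        if z.2 ≤ (ω n).2 then (1 : ℝ≥0∞) else 0 := fun z => rfl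
    simp only [e2]
    rw [lintegral_stepM J hJ _ (fun z => if z.2 ≤ (ω n).2 then (1 : ℝ≥0∞) else 0)
      (Measurable.ite (measurableSet_le (by fun_prop) (by fun_prop)) measurable_const
      measurable_const)]
    have h3 : ∫⁻ s, (if (ω n).2 + s ≤ (ω n).2 then (1 : ℝ≥0∞) else 0)
        ∂(expMeasure (J (ω n).1 Set.univ).toReal) = 0 := by
      have e3 : (fun s : ℝ => (if (ω n).2 + s ≤ (ω n).2 then (1 : ℝ≥0∞) else 0)) =
          Set.indicator {s : ℝ | s ≤ 0} (fun _ => 1) := by
        ext s
        simp only [Set.indicator, Set.mem_ofPred_eq]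
        by_cases hs : s ≤ 0
        · rw [if_pos hs, if_pos (by linarith)]
        · rw [if_neg hs, if_neg (by linarith)]
      rw [e3, lintegral_indicator measurableSet_nonpos]
      simp [expMeasure_nonpos]
    simp only [h3, lintegral_const, zero_mul, mul_zero]
  simp only [hr, lintegral_const, zero_mul] at ht
  rw [lintegral_eq_zero_iff] at ht
  · filter_upwards [ht] with ω hω
    by_contra hc
    have hc' : (ω (n + 1)).2 ≤ (ω n).2 := not_lt.1 hc
    have : (if (ω (n + 1)).2 ≤ (ω n).2 then (1 : ℝ≥0∞) else 0) = 0 := hω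
    rw [if_pos hc'] at this
    exact one_ne_zero this
  · exact Measurable.ite (measurableSet_le (by fun_prop)
      (by
        show Measurable fun ω : ℕ → X × ℝ => (ω n).2
        fun_prop)) measurable_const measurable_const

end Q288.Jump

namespace Q288.UrnCT

open MeasureTheory Pool.Agent.TH996.Urn Pool.Agent.W845.CP Q288.Jump Filter Topology
open scoped ENNReal

variable {V : Type} [Fintype V] {s : ℕ} (G : SimpleGraph V)

lemma ae_nucl (P : Config V s → Prop) (x : Config V s)
    (h : ∀ v c, 0 < x v c → P (step G x v c)) : ∀ᵐ y ∂(nucl G x), P y := by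
  classical
  have h0 : ∫⁻ y, (if P y then (0 : ℝ≥0∞) else 1) ∂(nucl G x) = 0 := by
    rw [lintegral_nucl]
    refine Finset.sum_eq_zero fun v _ => Finset.sum_eq_zero fun c _ => ?_
    rcases Nat.eq_zero_or_pos (x v c) with hx | hx
    · rw [hx]; simp
    · rw [if_pos (h v c hx)]; simp
  rw [lintegral_eq_zero_iff (measurable_of_countable _)] at h0
  filter_upwards [h0] with t ht
  by_contra hc
  simp [hc] at ht

/-- one step adds at most `card V` balls -/
lemma total_step (x : Config V s) (v : V) (c : Fin s) :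
    total (step G x v c) ≤ total x + Fintype.card V := by
  classical
  unfold total
  have h : ∀ u, ∑ d, step G x v c u d ≤ ∑ d, x u d + 1 := by
    intro u
    have h1 : ∀ d, step G x v c u d ≤ x u d + if d = c then 1 else 0 := by
      intro d
      unfold step
      split_ifs <;> omega
    calc ∑ d, step G x v c u d ≤ ∑ d, (x u d + if d = c then 1 else 0) :=
          Finset.sum_le_sum fun d _ => h1 d
      _ = ∑ d, x u d + 1 := by rw [Finset.sum_add_distrib]; simp
  calc ∑ u, ∑ d, step G x v c u d ≤ ∑ u, (∑ d, x u d + 1) := Finset.sum_le_sum fun u _ => h u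
    _ = _ := by rw [Finset.sum_add_distrib]; simp

/-- The urn scheme does not explode. -/
theorem no_explosion (x₀ : Config V s) :
    ∀ᵐ ω ∂(urnLaw G x₀), Tendsto (fun k => (ω k).2) atTop atTop := by
  have hc : (0 : ℝ) < total x₀ + Fintype.card V + 1 := by positivity
  refine nonexplosion (jump G) (goodJ_jump G) x₀ _ hc ?_
  filter_upwards [ae_inv (jump G) (goodJ_jump G) x₀
    (fun n x => total x ≤ total x₀ + n * Fintype.card V) (by simp) (by
      intro n x hx
      unfold jump
      by_cases h : total x = 0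
      · rw [if_pos h, ae_dirac_eq]
        show total x ≤ total x₀ + (n + 1) * Fintype.card V
        rw [h]; exact Nat.zero_le _
      · rw [if_neg h]
        refine ae_nucl G _ x fun v c _ => ?_
        have := total_step G x v c
        calc total (step G x v c) ≤ total x + Fintype.card V := this
          _ ≤ total x₀ + n * Fintype.card V + Fintype.card V := by gcongr
          _ = _ := by ring)] with ω hω n
  have h := hω n
  have hn : (0 : ℝ) ≤ n := Nat.cast_nonneg n
  have hC : (0 : ℝ) ≤ Fintype.card V := Nat.cast_nonneg _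
  have hT : (0 : ℝ) ≤ total x₀ := Nat.cast_nonneg _
  by_cases h0 : total (ω n).1 = 0
  · have : jump G (ω n).1 = Measure.dirac (ω n).1 := by unfold jump; rw [if_pos h0]
    rw [this]
    simp only [measure_univ, ENNReal.toReal_one]
    nlinarith
  · have : jump G (ω n).1 = nucl G (ω n).1 := by unfold jump; rw [if_neg h0]
    rw [this, nucl_univ, ENNReal.toReal_natCast]
    have h' : (total (ω n).1 : ℝ) ≤ total x₀ + n * Fintype.card V := by exact_mod_cast h
    nlinarith [mul_nonneg hn hT, mul_nonneg hn hC]

lemma jump_good {x : Config V s} (hx : Good x) : jump G x = nucl G x := by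
  unfold jump; rw [if_neg (by have := hx.2; omega)]

lemma good_step (n : ℕ) (x : Config V s) (hx : Good x) : ∀ᵐ y ∂(jump G x), Good y := by
  rw [jump_good G hx]
  exact ae_nucl G _ x fun v c hv => step_good G hx hv

/-- Coexistence for the discrete-time process implies it in continuous time. -/
theorem not_ae_single {x₀ : Config V s} (hx₀ : Good x₀) (hpos : 0 < hlim G x₀) :
    ¬ ∀ᵐ ω ∂(urnLaw G x₀), SingleSurvivor ω := by
  classical
  intro hae
  haveI : IsProbabilityMeasure (urnLaw G x₀) := by unfold urnLaw; infer_instance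
  have hmeas : ∀ k, Measurable (fun ω : ℕ → Config V s × ℝ => (ω k).1) := fun k => by fun_prop
  have hms : ∀ k, MeasurableSet {ω : ℕ → Config V s × ℝ | ¬ AllMono (ω k).1} := fun k =>
    hmeas k (DiscreteMeasurableSpace.forall_measurableSet {x : Config V s | ¬ AllMono x})
  have hk : ∀ k : ℕ, ENNReal.ofReal (hlim G x₀) ≤ urnLaw G x₀ {ω | ¬ AllMono (ω k).1} := by
    intro k
    have h1 := start_le_lintegral (jump G) (goodJ_jump G) x₀ (fun _ x => Good x) hx₀
      (good_step G) (fun x => ENNReal.ofReal (hlim G x)) (by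
        intro n x hx
        rw [jump_good G hx, nucl_univ, lintegral_nucl]
        have hharm := hlim_harmonic G hx
        have htot : (0 : ℝ) < total x := by exact_mod_cast hx.2
        have h2 : (total x : ℝ) * hlim G x = ∑ v, ∑ c, (x v c : ℝ) * hlim G (step G x v c) := by
          rw [← hharm]
          unfold Pop
          rw [Finset.mul_sum]
          refine Finset.sum_congr rfl fun v _ => ?_
          rw [Finset.mul_sum]
          refine Finset.sum_congr rfl fun c _ => ?_
          field_simp
        have h3 : (total x : ℝ≥0∞) * ENNReal.ofReal (hlim G x) =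
            ENNReal.ofReal ((total x : ℝ) * hlim G x) := by
          rw [ENNReal.ofReal_mul htot.le, ENNReal.ofReal_natCast]
        rw [h3, h2, ENNReal.ofReal_sum_of_nonneg (fun v _ => Finset.sum_nonneg fun c _ =>
          mul_nonneg (Nat.cast_nonneg _) (hlim_nonneg _ _))]
        refine le_of_eq (Finset.sum_congr rfl fun v _ => ?_)
        rw [ENNReal.ofReal_sum_of_nonneg (fun c _ =>
          mul_nonneg (Nat.cast_nonneg _) (hlim_nonneg _ _))]
        refine Finset.sum_congr rfl fun c _ => ?_
        rw [ENNReal.ofReal_mul (Nat.cast_nonneg _), ENNReal.ofReal_natCast]) k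
    refine h1.trans ?_
    have h2 : urnLaw G x₀ {ω | ¬ AllMono (ω k).1} =
        ∫⁻ ω, ({ω : ℕ → Config V s × ℝ | ¬ AllMono (ω k).1}).indicator 1 ω ∂(urnLaw G x₀) :=
      (lintegral_indicator_one (hms k)).symm
    rw [h2]
    refine lintegral_mono fun ω => ?_
    have h3 := hlim_le_nm G (ω k).1
    by_cases hm : AllMono (ω k).1
    · have h4 : nm (ω k).1 = 0 := by unfold nm; rw [if_pos hm]
      rw [h4] at h3
      simp [ENNReal.ofReal_of_nonpos h3]
    · have h4 : nm (ω k).1 = 1 := by unfold nm; rw [if_neg hm]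
      rw [h4] at h3
      simp only [Set.indicator, Set.mem_ofPred_eq, hm, not_false_eq_true, if_true, Pi.one_apply]
      calc ENNReal.ofReal (hlim G (ω k).1) ≤ ENNReal.ofReal 1 := ENNReal.ofReal_le_ofReal h3
        _ = 1 := ENNReal.ofReal_one
  -- monochromatic configurations stay monochromatic
  have hmono : ∀ᵐ ω ∂(urnLaw G x₀), ∀ n, AllMono (ω n).1 → AllMono (ω (n + 1)).1 := by
    refine ae_rel (jump G) (goodJ_jump G) x₀ (fun x y => AllMono x → AllMono y) ?_
    intro x
    by_cases hx : AllMono x
    · unfold jump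
      by_cases h : total x = 0
      · rw [if_pos h, ae_dirac_eq]; exact fun h => h
      · rw [if_neg h]
        exact ae_nucl G _ x fun v c hv _ => step_allMono G hx hv
    · exact Filter.Eventually.of_forall fun y h => absurd h hx
  have hall : ∀ᵐ ω ∂(urnLaw G x₀), ∃ k, AllMono (ω k).1 := by
    filter_upwards [hae, no_explosion G x₀, ae_strict (jump G) (goodJ_jump G) x₀]
      with ω h1 h2 h3
    obtain ⟨t₀, c, h⟩ := h1
    obtain ⟨k, hk⟩ := (h2.eventually_ge_atTop t₀).exists
    refine ⟨k, ?_⟩
    have h4 := h (ω k).2 hk (ω k).1 ⟨k, le_rfl, h3 k, rfl⟩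
    intro u v a b ha hb
    rw [h4 u a ha, h4 v b hb]
  -- hence the probability of not being monochromatic tends to zero
  have hlimset : Tendsto (fun k => urnLaw G x₀ {ω | ∀ j ≤ k, ¬ AllMono (ω j).1}) atTop
      (𝓝 (urnLaw G x₀ (⋂ k : ℕ, {ω | ∀ j ≤ k, ¬ AllMono (ω j).1}))) := by
    refine tendsto_measure_iInter_atTop (fun k => ?_) ?_ ⟨0, measure_ne_top _ _⟩
    · refine MeasurableSet.nullMeasurableSet ?_
      have : {ω : ℕ → Config V s × ℝ | ∀ j ≤ k, ¬ AllMono (ω j).1} =
          ⋂ j : ℕ, ⋂ (_ : j ≤ k), {ω | ¬ AllMono (ω j).1} := by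
        ext ω; simp
      rw [this]
      exact MeasurableSet.iInter fun j => MeasurableSet.iInter fun _ => hms j
    · intro k l hkl ω hω j hj
      exact hω j (hj.trans hkl)
  have hk2 : ∀ k : ℕ, ENNReal.ofReal (hlim G x₀) ≤
      urnLaw G x₀ {ω | ∀ j ≤ k, ¬ AllMono (ω j).1} := by
    intro k
    refine (hk k).trans (le_of_eq (measure_congr ?_))
    filter_upwards [hmono] with ω hω
    have hm : ∀ j k, j ≤ k → AllMono (ω j).1 → AllMono (ω k).1 := by
      intro j k hjk h
      induction k, hjk using Nat.le_induction with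
      | base => exact h
      | succ k _ ih => exact hω k ih
    apply propext
    show ¬ AllMono (ω k).1 ↔ ∀ j ≤ k, ¬ AllMono (ω j).1
    constructor
    · intro h j hj h'
      exact h (hm j k hj h')
    · intro h
      exact h k le_rfl
  have h1 := ge_of_tendsto' hlimset hk2
  have h2 : urnLaw G x₀ (⋂ k : ℕ, {ω | ∀ j ≤ k, ¬ AllMono (ω j).1}) = 0 := by
    rw [ae_iff] at hall
    refine measure_mono_null ?_ hall
    intro ω hω
    simp only [Set.mem_iInter, Set.mem_ofPred_eq] at hω
    simp only [Set.mem_ofPred_eq, not_exists]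
    intro k
    exact hω k k le_rfl
  rw [h2] at h1
  exact absurd h1 (not_le.2 (ENNReal.ofReal_pos.2 hpos))

/-- If the graph does not lie in the class of graphs without coexistence for the discrete-time
process, the continuous-time scheme has coexistence from some configuration. -/
theorem not_always_of_not_inClass (h : ¬ InClass G s) : ¬ AlwaysSingle G s := by
  intro hA
  apply h
  intro x₀ hx₀ h0 Ω _ P _ X hX
  have hg : Good x₀ := ⟨hx₀, h0⟩
  have h3 : hlim G x₀ = 0 := by
    by_contra hne
    exact not_ae_single G hg (lt_of_le_of_ne (hlim_nonneg _ _) (Ne.symm hne)) (hA x₀ hx₀ h0)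
  have h2 := hlim_tendsto G hg
  rw [h3] at h2
  exact wrap _ x₀ hx₀ h0 h2 P X hX

end Q288.UrnCT
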