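import Mathlib
import Pool.Agent.TH996.Urn.SbcMain

/-!
# A criterion for coexistence of three types on vertex transitive graphs

The neighbours of a vertex `v` are the vertices `mv v m`; the special moves `Sum.inl k` act on a
finite state `st v`, the neutral moves `Sum.inr r` leave it unchanged.
-/

set_option autoImplicit false
set_option linter.unusedSectionVars false

namespace Q288.UrnCT

open Pool.Agent.TH996.Urn Finset

variable {V : Type} [Fintype V] {G : SimpleGraph V} {R : Type} [Fintype R] {Q : Type}

/-- the data of the criterion -/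
structure Moves (G : SimpleGraph V) (R : Type) (Q : Type) where
  mv : V → Fin 4 ⊕ R → V
  adj : ∀ v u, G.Adj v u ↔ ∃ m, mv v m = u
  inj : ∀ v, Function.Injective (mv v)
  st : V → Q
  T : Q → Fin 4 → Q
  st_inl : ∀ v k, st (mv v (Sum.inl k)) = T (st v) k
  st_inr : ∀ v r, st (mv v (Sum.inr r)) = st v
  κ : Q → Option (Fin 4)
  c1 : ∀ q, κ q = none → ∀ i, (∑ k, if κ (T q k) = some i then 1 else 0) = 1
  c2 : ∀ q i, κ q = some i → ∀ k, κ (T q k) = none
  ex : ∀ i, ∃ v, κ (st v) = some i

variable (M : Moves G R Q)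

lemma sum_adj (v : V) (f : V → ℝ) (p : V → Prop) [DecidablePred p] [DecidableRel G.Adj] :
    (∑ u, if G.Adj v u ∧ p u then f u else 0) =
      ∑ k : Fin 4, (if p (M.mv v (Sum.inl k)) then f (M.mv v (Sum.inl k)) else 0) +
        ∑ r : R, (if p (M.mv v (Sum.inr r)) then f (M.mv v (Sum.inr r)) else 0) := by
  classical
  rw [← Fintype.sum_sum_type (fun m => if p (M.mv v m) then f (M.mv v m) else 0)]
  rw [← Finset.sum_image (s := (univ : Finset (Fin 4 ⊕ R))) (g := M.mv v)
    (f := fun u => if p u then f u else 0) (fun a _ b _ h => M.inj v h)]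
  have h1 : ∀ u, (if G.Adj v u ∧ p u then f u else 0) =
      if G.Adj v u then (if p u then f u else 0) else 0 := by
    intro u
    by_cases h1 : G.Adj v u <;> by_cases h2 : p u <;> simp [h1, h2]
  rw [Finset.sum_congr rfl (fun u _ => h1 u), ← Finset.sum_filter]
  refine Finset.sum_congr ?_ (fun _ _ => rfl)
  ext u
  simp only [mem_filter, mem_univ, true_and, mem_image]
  exact M.adj v u

/-- the coloured classes -/
def isCol : Option (Fin 4) → Bool
  | none => false
  | some i => decide (i.val < 3)

/-- the colour -/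
def col (s : ℕ) (hs : 3 ≤ s) : Option (Fin 4) → Fin s
  | none => ⟨0, by omega⟩
  | some i => ⟨if i.val < 3 then i.val else 0, by split_ifs <;> omega⟩

lemma isCol_iff (o : Option (Fin 4)) : isCol o = true ↔ ∃ i : Fin 4, i.val < 3 ∧ o = some i := by
  cases o with
  | none => simp [isCol]
  | some i =>
    simp only [isCol, decide_eq_true_eq]
    constructor
    · intro h; exact ⟨i, h, rfl⟩
    · rintro ⟨j, hj, h⟩
      have : i = j := by simpa using h
      rw [this]; exact hj

/-- total weight of the coloured neighbours of a white vertex -/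
lemma sum_col (q : Q) (hq : M.κ q = none) :
    (∑ k : Fin 4, if isCol (M.κ (M.T q k)) = true then (1 : ℝ) else 0) = 3 := by
  have h : ∀ k : Fin 4, (if isCol (M.κ (M.T q k)) = true then (1 : ℝ) else 0) =
      ∑ i : Fin 3, (if M.κ (M.T q k) = some (i.castLE (by norm_num)) then (1 : ℝ) else 0) := by
    intro k
    by_cases hc : isCol (M.κ (M.T q k)) = true
    · rw [if_pos hc]
      obtain ⟨i, hi, hk⟩ := (isCol_iff _).1 hc
      rw [Finset.sum_eq_single (⟨i.val, hi⟩ : Fin 3)]
      · rw [if_pos]; rw [hk]; rfl
      · intro j _ hj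
        rw [if_neg]
        intro h
        rw [hk] at h
        apply hj
        have h2 := congrArg Fin.val (Option.some.inj h)
        ext
        simpa using h2.symm
      · intro h; exact absurd (mem_univ _) h
    · rw [if_neg hc]
      symm
      apply Finset.sum_eq_zero
      intro i _
      rw [if_neg]
      intro h
      apply hc
      rw [isCol_iff]
      exact ⟨_, i.2, h⟩
  rw [Finset.sum_congr rfl (fun k _ => h k), Finset.sum_comm]
  have h1 : ∀ i : Fin 3, (∑ k : Fin 4, if M.κ (M.T q k) = some (i.castLE (by norm_num)) then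
      (1 : ℝ) else 0) = 1 := by
    intro i
    have := M.c1 q hq (i.castLE (by norm_num))
    exact_mod_cast this
  rw [Finset.sum_congr rfl (fun i _ => h1 i)]
  simp

/-- weight of the neighbours of a given colour of a white vertex -/
lemma sum_one (s : ℕ) (hs : 3 ≤ s) (q : Q) (hq : M.κ q = none) (c : Fin s) :
    (∑ k : Fin 4, if isCol (M.κ (M.T q k)) = true ∧ col s hs (M.κ (M.T q k)) = c
      then (1 : ℝ) else 0) ≤ 1 := by
  by_cases hc : c.val < 4
  · have := M.c1 q hq ⟨c.val, hc⟩
    have h2 : (∑ k : Fin 4, if M.κ (M.T q k) = some ⟨c.val, hc⟩ then (1 : ℝ) else 0) = 1 := by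
      exact_mod_cast this
    refine le_trans (Finset.sum_le_sum fun k _ => ?_) h2.le
    by_cases h : isCol (M.κ (M.T q k)) = true ∧ col s hs (M.κ (M.T q k)) = c
    · rw [if_pos h, if_pos]
      obtain ⟨i, hi, hk⟩ := (isCol_iff _).1 h.1
      rw [hk]
      have h3 := h.2
      rw [hk] at h3
      simp only [col, if_pos hi] at h3
      have h4 : i.val = c.val := congrArg Fin.val h3
      exact congrArg some (Fin.ext h4)
    · rw [if_neg h]
      split_ifs <;> norm_num
  · rw [Finset.sum_eq_zero]
    · norm_num
    · intro k _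
      rw [if_neg]
      rintro ⟨h1, h2⟩
      obtain ⟨i, hi, hk⟩ := (isCol_iff _).1 h1
      rw [hk] at h2
      simp only [col, if_pos hi] at h2
      apply hc
      rw [← h2]
      simp only
      omega

open Classical in
/-- A graph with such moves (and at least one neutral move) has a strictly balanced configuration
with `s ≥ 3` colours. -/
theorem moves_sbc [Nonempty R] (s : ℕ) (hs : 3 ≤ s) :
    IsSBC G (univ.filter fun v => isCol (M.κ (M.st v)) = true) (fun v => col s hs (M.κ (M.st v)))
      (fun v => if isCol (M.κ (M.st v)) = true then 1 else 0) (Fintype.card R : ℝ) := by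
  have hnone : ∀ z, M.κ (M.st z) = none → ∃ u, isCol (M.κ (M.st u)) = true ∧ G.Adj z u := by
    intro z hz
    have h1 := M.c1 _ hz 0
    obtain ⟨k, hk⟩ : ∃ k, M.κ (M.T (M.st z) k) = some 0 := by
      by_contra hc
      push Not at hc
      rw [Finset.sum_eq_zero (fun k _ => by rw [if_neg (hc k)])] at h1
      exact absurd h1 (by norm_num)
    refine ⟨M.mv z (Sum.inl k), ?_, (M.adj z _).2 ⟨_, rfl⟩⟩
    rw [M.st_inl, hk]
    rfl
  -- a neighbour of a vertex of class `i` is white or of class `i`
  have hnb : ∀ v i, M.κ (M.st v) = some i → ∀ u, G.Adj v u → M.κ (M.st u) = none ∨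
      M.st u = M.st v := by
    intro v i hv u hu
    obtain ⟨m, rfl⟩ := (M.adj v u).1 hu
    cases m with
    | inl k => left; rw [M.st_inl]; exact M.c2 _ i hv k
    | inr r => right; exact M.st_inr v r
  refine ⟨?_, ?_, ?_, ?_, ?_, ?_, ?_, ?_⟩
  · exact_mod_cast Fintype.card_pos
  · intro v hv
    simp only [mem_filter, mem_univ, true_and] at hv
    rw [if_pos hv]; norm_num
  · intro v hv
    simp only [mem_filter, mem_univ, true_and] at hv
    rw [if_neg hv]
  · intro v hv
    simp only [mem_filter, mem_univ, true_and] at hv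
    obtain ⟨i, hi, hk⟩ := (isCol_iff _).1 hv
    have h := sum_adj M v (fun v => if isCol (M.κ (M.st v)) = true then (1 : ℝ) else 0)
      (fun _ => True)
    simp only [and_true, if_true] at h
    rw [h]
    have h1 : ∀ k : Fin 4, (if isCol (M.κ (M.st (M.mv v (Sum.inl k)))) = true then (1 : ℝ) else 0)
        = 0 := by
      intro k
      rw [M.st_inl, M.c2 _ i hk k]
      simp [isCol]
    have h2 : ∀ r : R, (if isCol (M.κ (M.st (M.mv v (Sum.inr r)))) = true then (1 : ℝ) else 0)
        = 1 := by
      intro r
      rw [M.st_inr, if_pos hv]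
    rw [Finset.sum_congr rfl (fun k _ => h1 k), Finset.sum_congr rfl (fun r _ => h2 r), if_pos hv]
    simp
  · intro u hu v hv huv
    simp only [mem_filter, mem_univ, true_and] at hu hv
    obtain ⟨i, hi, hk⟩ := (isCol_iff _).1 hu
    rcases hnb u i hk v huv with h | h
    · rw [h] at hv; simp [isCol] at hv
    · simp only [h]
  · obtain ⟨u, hu⟩ := M.ex 0
    obtain ⟨v, hv⟩ := M.ex 1
    refine ⟨u, ?_, v, ?_, ?_⟩
    · simp only [mem_filter, mem_univ, true_and, hu]; rfl
    · simp only [mem_filter, mem_univ, true_and, hv]; rfl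
    · simp only [hu, hv, col]
      intro h
      have := congrArg Fin.val h
      simp at this
  · intro z hz hex c
    simp only [mem_filter, mem_univ, true_and] at hz
    obtain ⟨u, hu, hzu⟩ := hex
    simp only [mem_filter, mem_univ, true_and] at hu
    -- z is white
    have hz0 : M.κ (M.st z) = none := by
      rcases hκ : M.κ (M.st z) with _ | i
      · rfl
      · exfalso
        rcases hnb z i hκ u hzu with h | h
        · rw [h] at hu; simp [isCol] at hu
        · rw [h] at hu; exact hz hu
    have h1 := sum_adj M z (fun v => if isCol (M.κ (M.st v)) = true then (1 : ℝ) else 0)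
      (fun _ => True)
    simp only [and_true, if_true] at h1
    have h2 := sum_adj M z (fun v => if isCol (M.κ (M.st v)) = true then (1 : ℝ) else 0)
      (fun u => col s hs (M.κ (M.st u)) = c)
    rw [h1, h2]
    have h3 : ∀ r : R, (if isCol (M.κ (M.st (M.mv z (Sum.inr r)))) = true then (1 : ℝ) else 0)
        = 0 := by
      intro r
      rw [M.st_inr, if_neg hz]
    have h4 : ∀ r : R, (if col s hs (M.κ (M.st (M.mv z (Sum.inr r)))) = c then
        (if isCol (M.κ (M.st (M.mv z (Sum.inr r)))) = true then (1 : ℝ) else 0) else 0) = 0 := by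
      intro r
      rw [h3]; simp
    rw [Finset.sum_congr rfl (fun r _ => h3 r), Finset.sum_congr rfl (fun r _ => h4 r)]
    have h5 : ∀ k : Fin 4, (if isCol (M.κ (M.st (M.mv z (Sum.inl k)))) = true then (1 : ℝ) else 0)
        = if isCol (M.κ (M.T (M.st z) k)) = true then (1 : ℝ) else 0 := by
      intro k; rw [M.st_inl]
    have h6 : ∀ k : Fin 4, (if col s hs (M.κ (M.st (M.mv z (Sum.inl k)))) = c then
        (if isCol (M.κ (M.st (M.mv z (Sum.inl k)))) = true then (1 : ℝ) else 0) else 0) =
        if isCol (M.κ (M.T (M.st z) k)) = true ∧ col s hs (M.κ (M.T (M.st z) k)) = c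
          then (1 : ℝ) else 0 := by
      intro k
      rw [M.st_inl]
      by_cases a : isCol (M.κ (M.T (M.st z) k)) = true <;>
        by_cases b : col s hs (M.κ (M.T (M.st z) k)) = c <;> simp [a, b]
    rw [Finset.sum_congr rfl (fun k _ => h5 k), Finset.sum_congr rfl (fun k _ => h6 k),
      sum_col M _ hz0]
    have h7 := sum_one M s hs _ hz0 c
    simp only [Finset.sum_const_zero, add_zero]
    linarith
  · refine ⟨fun _ => 1, ?_⟩
    intro u hu hun
    simp only [mem_filter, mem_univ, true_and] at hu hun
    refine ⟨one_pos, ?_⟩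
    rcases hκ : M.κ (M.st u) with _ | i
    · exfalso
      obtain ⟨w, hw, hadj⟩ := hnone u hκ
      exact hun w hw hadj
    · have h1 := sum_adj M u (fun _ => (1 : ℝ)) (fun w => w ∉ (univ.filter fun v =>
        isCol (M.κ (M.st v)) = true) ∧ ∀ v ∈ (univ.filter fun v =>
        isCol (M.κ (M.st v)) = true), ¬ G.Adj w v)
      rw [h1]
      have h2 : ∀ k : Fin 4, (if (M.mv u (Sum.inl k)) ∉ (univ.filter fun v =>
        isCol (M.κ (M.st v)) = true) ∧ ∀ v ∈ (univ.filter fun v =>
        isCol (M.κ (M.st v)) = true), ¬ G.Adj (M.mv u (Sum.inl k)) v then (1 : ℝ) else 0) = 0 := by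
        intro k
        rw [if_neg]
        rintro ⟨-, h3⟩
        obtain ⟨w, hw, hadj⟩ := hnone (M.mv u (Sum.inl k)) (by
          rw [M.st_inl]; exact M.c2 _ i hκ k)
        exact h3 w (by simp only [mem_filter, mem_univ, true_and]; exact hw) hadj
      rw [Finset.sum_congr rfl (fun k _ => h2 k), Finset.sum_const_zero, zero_add, mul_one]
      calc _ ≤ ∑ _r : R, (1 : ℝ) := Finset.sum_le_sum fun r _ => by split_ifs <;> norm_num
        _ = _ := by simp

end Q288.UrnCT
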