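import Mathlib
import Pool.Agent.Q288.UrnCT.Moves

/-!
# Hypercubes and tori
-/

set_option autoImplicit false
set_option linter.unusedSectionVars false

namespace Q288.UrnCT

open Pool.Agent.TH996.Urn Finset

/-- The hypercube `Q_n`: two strings are adjacent when they differ in exactly one coordinate. -/
def hypercube (n : ℕ) : SimpleGraph (Fin n → Bool) where
  Adj x y := ∃ i, x i ≠ y i ∧ ∀ j, j ≠ i → x j = y j
  symm := ⟨fun _ _ ⟨i, h1, h2⟩ => ⟨i, h1.symm, fun j hj => (h2 j hj).symm⟩⟩
  loopless := ⟨fun _ ⟨_, h1, _⟩ => h1 rfl⟩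

/-- The discrete torus of dimension `d` and side `N`: two vertices are adjacent when they differ
by `±1` in exactly one coordinate (as a simple graph). -/
def torus (d N : ℕ) : SimpleGraph (Fin d → ZMod N) where
  Adj x y := x ≠ y ∧ ∃ i, (y i = x i + 1 ∨ y i = x i - 1) ∧ ∀ j, j ≠ i → x j = y j
  symm := ⟨fun x y ⟨h0, i, h1, h2⟩ => ⟨h0.symm, i, by
    rcases h1 with h1 | h1
    · right; rw [h1]; ring
    · left; rw [h1]; ring, fun j hj => (h2 j hj).symm⟩⟩
  loopless := ⟨fun _ ⟨h0, _⟩ => h0 rfl⟩

/-! ### The hypercube -/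

/-- flipping one bit of a quadruple of bits -/
def flip4 (q : Fin 4 → Bool) (k : Fin 4) : Fin 4 → Bool := Function.update q k (!q k)

/-- classes of the quadruples of bits: odd ones are white, the even ones form four antipodal
pairs -/
def cls (q : Fin 4 → Bool) : Option (Fin 4) :=
  if (q 0 ^^ q 1 ^^ q 2 ^^ q 3) = true then none
  else if q 0 = q 1 then (if q 0 = q 2 then some 0 else some 1)
  else (if q 0 = q 2 then some 2 else some 3)

/-- The moves of the hypercube. -/
def cubeMoves (m : ℕ) : Moves (hypercube (4 + m)) (Fin m) (Fin 4 → Bool) where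
  mv v k := Function.update v (finSumFinEquiv k) (!v (finSumFinEquiv k))
  adj v u := by
    constructor
    · rintro ⟨i, h1, h2⟩
      refine ⟨finSumFinEquiv.symm i, ?_⟩
      rw [Equiv.apply_symm_apply]
      funext j
      by_cases hj : j = i
      · subst hj
        rw [Function.update_self]
        revert h1
        cases v j <;> cases u j <;> simp
      · rw [Function.update_of_ne hj]; exact h2 j hj
    · rintro ⟨k, rfl⟩
      refine ⟨finSumFinEquiv k, ?_, fun j hj => ?_⟩
      · rw [Function.update_self]; cases v (finSumFinEquiv k) <;> simp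
      · rw [Function.update_of_ne hj]
  inj v k l h := by
    by_contra hne
    have h1 := congrFun h (finSumFinEquiv k)
    beta_reduce at h1
    rw [Function.update_self, Function.update_of_ne (fun h => hne (finSumFinEquiv.injective h))]
      at h1
    revert h1
    cases v (finSumFinEquiv k) <;> simp
  st v k := v (Fin.castAdd m k)
  T := flip4
  st_inl v k := by
    funext j
    simp only [finSumFinEquiv_apply_left, flip4]
    by_cases hj : j = k
    · subst hj; rw [Function.update_self, Function.update_self]
    · rw [Function.update_of_ne hj, Function.update_of_ne]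
      intro h
      exact hj (Fin.castAdd_injective _ _ h)
  st_inr v r := by
    funext j
    simp only [finSumFinEquiv_apply_right]
    rw [Function.update_of_ne]
    intro h
    have h1 := congrArg Fin.val h
    have h2 := j.2
    simp only [Fin.val_castAdd, Fin.val_natAdd] at h1
    omega
  κ := cls
  c1 := by decide
  c2 := by decide
  ex := by
    intro i
    have h : ∀ i : Fin 4, ∃ q : Fin 4 → Bool, cls q = some i := by decide
    obtain ⟨q, hq⟩ := h i
    refine ⟨fun j => if h : j.val < 4 then q ⟨j.val, h⟩ else false, ?_⟩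
    have : (fun k : Fin 4 => (fun j : Fin (4 + m) => if h : j.val < 4 then q ⟨j.val, h⟩ else false)
        (Fin.castAdd m k)) = q := by
      funext k
      simp
    rw [this]; exact hq

theorem cube_not_inClass (s : ℕ) (hs : 3 ≤ s) (n : ℕ) (hn : 5 ≤ n) :
    ¬ InClass (hypercube n) s := by
  obtain ⟨m, rfl⟩ : ∃ m, n = 4 + (m + 1) := ⟨n - 5, by omega⟩
  exact sbc_not_inClass (moves_sbc (cubeMoves (m + 1)) s hs)

/-! ### The torus -/

/-- the special moves on the first two coordinates modulo 4 -/
def move2 (q : ZMod 4 × ZMod 4) : Fin 4 → ZMod 4 × ZMod 4 :=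
  ![(q.1 + 1, q.2), (q.1 - 1, q.2), (q.1, q.2 + 1), (q.1, q.2 - 1)]

/-- classes: white if the coordinate sum is odd; otherwise the class is given by the sum and
the difference of the coordinates modulo 4 -/
def cls2 (q : ZMod 4 × ZMod 4) : Option (Fin 4) :=
  if q.1 + q.2 = 1 ∨ q.1 + q.2 = 3 then none
  else if q.1 + q.2 = 0 then (if q.1 - q.2 = 0 then some 0 else some 1)
  else (if q.1 - q.2 = 0 then some 2 else some 3)

/-- index and sign of a special move -/
def spec (d : ℕ) : Fin 4 → Fin (2 + d) × Bool :=
  ![(Fin.castAdd d 0, true), (Fin.castAdd d 0, false), (Fin.castAdd d 1, true),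
    (Fin.castAdd d 1, false)]

/-- index and sign of a move -/
def idx (d : ℕ) : Fin 4 ⊕ (Fin d × Bool) → Fin (2 + d) × Bool
  | Sum.inl k => spec d k
  | Sum.inr r => (Fin.natAdd 2 r.1, r.2)

lemma idx_bij (d : ℕ) : Function.Bijective (idx d) := by
  constructor
  · rintro (k | ⟨r, b⟩) (l | ⟨t, c⟩) h
    · congr 1
      fin_cases k <;> fin_cases l <;> simp [idx, spec, Fin.ext_iff] at h ⊢
    · exfalso
      fin_cases k <;> simp [idx, spec, Fin.ext_iff] at h <;> omega
    · exfalso
      fin_cases l <;> simp [idx, spec, Fin.ext_iff] at h <;> omega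
    · simp only [idx, Prod.mk.injEq] at h
      rw [h.2, Fin.natAdd_injective d 2 h.1]
  · rintro ⟨i, b⟩
    by_cases h0 : i.val < 2
    · by_cases h1 : i.val = 0
      · cases b
        · exact ⟨Sum.inl 1, by simp [idx, spec, Fin.ext_iff, h1]⟩
        · exact ⟨Sum.inl 0, by simp [idx, spec, Fin.ext_iff, h1]⟩
      · have h2 : i.val = 1 := by omega
        cases b
        · exact ⟨Sum.inl 3, by simp [idx, spec, Fin.ext_iff, h2]⟩
        · exact ⟨Sum.inl 2, by simp [idx, spec, Fin.ext_iff, h2]⟩
    · refine ⟨Sum.inr (⟨i.val - 2, by omega⟩, b), ?_⟩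
      simp only [idx, Prod.mk.injEq, and_true]
      ext
      simp only [Fin.val_natAdd]
      omega

/-- adding `±1` -/
def pm {N : ℕ} (b : Bool) : ZMod N := if b then 1 else -1

/-- The moves of the torus. -/
def torusMoves (d N : ℕ) [NeZero N] (hN : 4 ∣ N) :
    Moves (torus (2 + d) N) (Fin d × Bool) (ZMod 4 × ZMod 4) where
  mv v k := Function.update v (idx d k).1 (v (idx d k).1 + pm (idx d k).2)
  adj v u := by
    have h1ne : (1 : ZMod N) ≠ 0 := by
      have : Fact (1 < N) := ⟨by
        have := Nat.le_of_dvd (Nat.pos_of_ne_zero (NeZero.ne N)) hN; omega⟩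
      exact one_ne_zero
    have hpm : ∀ b : Bool, (pm b : ZMod N) ≠ 0 := by
      intro b; cases b <;> simp [pm, h1ne]
    constructor
    · rintro ⟨_, i, h1, h2⟩
      have key : ∃ b : Bool, u i = v i + pm b := by
        rcases h1 with h1 | h1
        · exact ⟨true, by rw [h1]; simp [pm]⟩
        · exact ⟨false, by rw [h1]; simp [pm, sub_eq_add_neg]⟩
      obtain ⟨b, hb⟩ := key
      obtain ⟨k, hk⟩ := (idx_bij d).2 (i, b)
      refine ⟨k, ?_⟩
      rw [hk]
      funext j
      by_cases hj : j = i
      · subst hj; rw [Function.update_self, hb]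
      · rw [Function.update_of_ne hj]; exact h2 j hj
    · rintro ⟨k, rfl⟩
      refine ⟨?_, (idx d k).1, ?_, fun j hj => ?_⟩
      · intro h
        have h1 := congrFun h (idx d k).1
        rw [Function.update_self] at h1
        exact hpm (idx d k).2 (by simpa using h1)
      · rw [Function.update_self]
        cases (idx d k).2
        · right; simp [pm, sub_eq_add_neg]
        · left; simp [pm]
      · rw [Function.update_of_ne hj]
  inj v k l h := by
    have hN4 : 4 ≤ N := Nat.le_of_dvd (Nat.pos_of_ne_zero (NeZero.ne N)) hN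
    have h1ne : (1 : ZMod N) ≠ 0 := by
      have : Fact (1 < N) := ⟨by omega⟩
      exact one_ne_zero
    have h2ne : (1 : ZMod N) ≠ -1 := by
      intro h
      have h2 : ((2 : ℕ) : ZMod N) = 0 := by
        push_cast
        calc (2 : ZMod N) = 1 + 1 := by norm_num
          _ = 1 + -1 := by rw [← h]
          _ = 0 := by ring
      rw [ZMod.natCast_eq_zero_iff] at h2
      have := Nat.le_of_dvd (by norm_num) h2
      omega
    have hpm : ∀ b : Bool, (pm b : ZMod N) ≠ 0 := by
      intro b; cases b <;> simp [pm, h1ne]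
    apply (idx_bij d).1
    have e1 : (idx d k).1 = (idx d l).1 := by
      by_contra hne
      have h1 := congrFun h (idx d k).1
      beta_reduce at h1
      rw [Function.update_self, Function.update_of_ne hne] at h1
      exact hpm (idx d k).2 (by simpa using h1)
    have h1 := congrFun h (idx d k).1
    beta_reduce at h1
    rw [Function.update_self] at h1
    rw [e1, Function.update_self] at h1
    have h2 : (pm (idx d k).2 : ZMod N) = pm (idx d l).2 := by simpa using h1
    refine Prod.ext e1 ?_
    revert h2
    cases (idx d k).2 <;> cases (idx d l).2 <;> simp [pm, h2ne, h2ne.symm]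
  st v := (ZMod.castHom hN (ZMod 4) (v (Fin.castAdd d 0)),
    ZMod.castHom hN (ZMod 4) (v (Fin.castAdd d 1)))
  T := move2
  st_inl v k := by
    have h01 : (Fin.castAdd d 0 : Fin (2 + d)) ≠ Fin.castAdd d 1 := by
      intro h; simpa using congrArg Fin.val h
    fin_cases k <;>
      simp [idx, spec, move2, Function.update_self, pm, sub_eq_add_neg, -ZMod.castHom_apply]
  st_inr v r := by
    have h0 : (Fin.castAdd d 0 : Fin (2 + d)) ≠ Fin.natAdd 2 r.1 := by
      intro h
      have := congrArg Fin.val h
      simp at this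
      omega
    have h1 : (Fin.castAdd d 1 : Fin (2 + d)) ≠ Fin.natAdd 2 r.1 := by
      intro h
      have := congrArg Fin.val h
      simp at this
      omega
    simp only [idx]
    rw [Function.update_of_ne h0, Function.update_of_ne h1]
  κ := cls2
  c1 := by decide
  c2 := by decide
  ex := by
    intro i
    have h : ∀ i : Fin 4, ∃ a b : Fin 4, cls2 ((a.val : ZMod 4), (b.val : ZMod 4)) = some i := by
      decide
    obtain ⟨a, b, hq⟩ := h i
    refine ⟨fun j => if j.val = 0 then (a.val : ZMod N) else (b.val : ZMod N), ?_⟩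
    simpa using hq

theorem torus_not_inClass (s : ℕ) (hs : 3 ≤ s) (d N : ℕ) [NeZero N] (hd : 3 ≤ d) (hN : 4 ∣ N) :
    ¬ InClass (torus d N) s := by
  obtain ⟨m, rfl⟩ : ∃ m, d = 2 + (m + 1) := ⟨d - 3, by omega⟩
  exact sbc_not_inClass (moves_sbc (torusMoves (m + 1) N hN) s hs)

end Q288.UrnCT
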